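import Pool.Agent.W488.IX.Stm

/-! Project IX, part S_REGE: the functions `eX`, `gX` are Lipschitz. -/

set_option autoImplicit false

namespace Pool.Agent.W63.IX.Rege

open MeasureTheory Set Filter Topology
open Pool.Agent.W488.IW Pool.Agent.W488.IX

/-- quotient by a square, ordered form -/
lemma quot1 {B : ℝ → ℝ} {C c ε : ℝ} (hC : 0 ≤ C) (hc : 0 ≤ c) (hε : 0 < ε)
    (h1 : ∀ m, 0 ≤ m → |B m| ≤ C * m ^ 2)
    (h2 : ∀ m m', 0 ≤ m → 0 ≤ m' → |B m - B m'| ≤ C * (m + m') * |m - m'|)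
    {m m' x x' : ℝ} (hm : 0 ≤ m) (hm' : 0 ≤ m') (hx : ε ≤ x) (hxx : x ≤ x')
    (hmx : m ≤ c * x) (hmx' : m' ≤ c * x') :
    |B m / x ^ 2 - B m' / x' ^ 2| ≤ (2 * c * C + 2 * C * c ^ 2) / ε * (|m - m'| + |x - x'|) := by
  have hx0 : 0 < x := hε.trans_le hx
  have hx0' : 0 < x' := hx0.trans_le hxx
  have hεx' : ε ≤ x' := hx.trans hxx
  have e : B m / x ^ 2 - B m' / x' ^ 2
      = (B m - B m') / x' ^ 2 + B m * (1 / x ^ 2 - 1 / x' ^ 2) := by
    field_simp
    ring
  have a1 : |(B m - B m') / x' ^ 2| ≤ 2 * c * C / ε * |m - m'| := by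
    rw [abs_div, abs_of_pos (by positivity : 0 < x' ^ 2), div_le_iff₀ (by positivity)]
    have k1 := h2 m m' hm hm'
    have k2 : m + m' ≤ 2 * c * x' := by nlinarith
    have k3 : C * (m + m') * |m - m'| ≤ C * (2 * c * x') * |m - m'| := by gcongr
    refine (k1.trans k3).trans ?_
    have k4 : 2 * c * C / ε * |m - m'| * x' ^ 2 - C * (2 * c * x') * |m - m'|
        = 2 * c * C * |m - m'| * x' * (x' - ε) / ε := by
      field_simp
    have k5 : 0 ≤ 2 * c * C * |m - m'| * x' * (x' - ε) / ε := by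
      have : 0 ≤ x' - ε := by linarith
      positivity
    linarith
  have a2 : |B m * (1 / x ^ 2 - 1 / x' ^ 2)| ≤ 2 * C * c ^ 2 / ε * |x - x'| := by
    have k0 : 0 ≤ 1 / x ^ 2 - 1 / x' ^ 2 := by
      rw [sub_nonneg]
      gcongr
    rw [abs_mul, abs_of_nonneg k0]
    have k1 : |B m| ≤ C * (c * x) ^ 2 := (h1 m hm).trans (by gcongr)
    have k2 : |B m| * (1 / x ^ 2 - 1 / x' ^ 2) ≤ C * (c * x) ^ 2 * (1 / x ^ 2 - 1 / x' ^ 2) := by
      gcongr
    refine k2.trans ?_
    have k3 : C * (c * x) ^ 2 * (1 / x ^ 2 - 1 / x' ^ 2)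
        = C * c ^ 2 * ((x' - x) * (x' + x)) / x' ^ 2 := by
      field_simp
      ring
    rw [k3, div_le_iff₀ (by positivity), abs_sub_comm, abs_of_nonneg (by linarith : 0 ≤ x' - x)]
    have k4 : 2 * C * c ^ 2 / ε * (x' - x) * x' ^ 2 - C * c ^ 2 * ((x' - x) * (x' + x))
        = C * c ^ 2 * (x' - x) * (2 * x' * (x' - ε) + ε * (x' - x)) / ε := by
      field_simp
      ring
    have k5 : 0 ≤ C * c ^ 2 * (x' - x) * (2 * x' * (x' - ε) + ε * (x' - x)) / ε := by
      have : 0 ≤ x' - ε := by linarith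
      have : 0 ≤ x' - x := by linarith
      positivity
    linarith
  rw [e]
  refine (abs_add_le _ _).trans ?_
  have h3 : (2 * c * C + 2 * C * c ^ 2) / ε * (|m - m'| + |x - x'|)
      = 2 * c * C / ε * |m - m'| + 2 * C * c ^ 2 / ε * |x - x'|
        + (2 * C * c ^ 2 / ε * |m - m'| + 2 * c * C / ε * |x - x'|) := by
    field_simp
    ring
  rw [h3]
  have h4 : 0 ≤ 2 * C * c ^ 2 / ε * |m - m'| + 2 * c * C / ε * |x - x'| := by positivity
  linarith

/-- quotient by a square -/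
lemma quot {B : ℝ → ℝ} {C c ε : ℝ} (hC : 0 ≤ C) (hc : 0 ≤ c) (hε : 0 < ε)
    (h1 : ∀ m, 0 ≤ m → |B m| ≤ C * m ^ 2)
    (h2 : ∀ m m', 0 ≤ m → 0 ≤ m' → |B m - B m'| ≤ C * (m + m') * |m - m'|)
    {m m' x x' : ℝ} (hm : 0 ≤ m) (hm' : 0 ≤ m') (hx : ε ≤ x) (hx' : ε ≤ x')
    (hmx : m ≤ c * x) (hmx' : m' ≤ c * x') :
    |B m / x ^ 2 - B m' / x' ^ 2| ≤ (2 * c * C + 2 * C * c ^ 2) / ε * (|m - m'| + |x - x'|) := by
  rcases le_total x x' with h | h
  · exact quot1 hC hc hε h1 h2 hm hm' hx h hmx hmx'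
  · rw [abs_sub_comm, abs_sub_comm m, abs_sub_comm x]
    exact quot1 hC hc hε h1 h2 hm' hm hx' h hmx' hmx

/-- integrals of functions with linear growth -/
lemma int_lin {g : ℝ → ℝ} (hg : Continuous g) {C : ℝ} (hb : ∀ s, 0 ≤ s → |g s| ≤ C * s) :
    (∀ m, 0 ≤ m → |∫ s in (0 : ℝ)..m, g s| ≤ C * m ^ 2) ∧
    (∀ m m', 0 ≤ m → 0 ≤ m' →
      |(∫ s in (0 : ℝ)..m, g s) - ∫ s in (0 : ℝ)..m', g s| ≤ C * (m + m') * |m - m'|) := by
  have h2 : ∀ m m', 0 ≤ m → 0 ≤ m' →
      |(∫ s in (0 : ℝ)..m, g s) - ∫ s in (0 : ℝ)..m', g s| ≤ C * (m + m') * |m - m'| := by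
    intro m m' hm hm'
    have hC : 0 ≤ C := by
      have := hb 1 zero_le_one
      have h0 := abs_nonneg (g 1)
      linarith
    rw [intervalIntegral.integral_interval_sub_left (hg.intervalIntegrable _ _)
      (hg.intervalIntegrable _ _)]
    have h := intervalIntegral.norm_integral_le_of_norm_le_const (f := g) (a := m') (b := m)
      (C := C * (m + m')) (by
        intro s hs
        have hs0 : 0 ≤ s := by
          rcases hs with ⟨h1, h2⟩
          have : 0 ≤ min m' m := le_min hm' hm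
          linarith
        have hs1 : s ≤ m + m' := by
          rcases hs with ⟨h1, h2⟩
          have : max m' m ≤ m + m' := max_le (by linarith) (by linarith)
          linarith
        rw [Real.norm_eq_abs]
        exact (hb s hs0).trans (by gcongr))
    rwa [Real.norm_eq_abs] at h
  refine ⟨fun m hm => ?_, h2⟩
  have h := h2 m 0 hm le_rfl
  simp only [intervalIntegral.integral_same, sub_zero, add_zero, abs_of_nonneg hm] at h
  nlinarith

lemma om1_cont {κ : ℝ → ℝ} (hκ : Continuous κ) : Continuous (om1 κ) := by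
  unfold om1
  exact intervalIntegral.continuous_primitive (fun a b => hκ.intervalIntegrable a b) 0

lemma om1_lip {α C : ℝ} {κ : ℝ → ℝ} (h : Kap α C κ) (s s' : ℝ) :
    |om1 κ s - om1 κ s'| ≤ C * |s - s'| := by
  unfold om1
  rw [intervalIntegral.integral_interval_sub_left (h.cont.intervalIntegrable _ _)
      (h.cont.intervalIntegrable _ _)]
  have h' := intervalIntegral.norm_integral_le_of_norm_le_const (f := κ) (a := s') (b := s)
      (C := C) (by
        intro t _
        rw [Real.norm_eq_abs, abs_of_nonneg (h.nn t)]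
        exact h.bd t)
  rwa [Real.norm_eq_abs] at h'

lemma om1_zero (κ : ℝ → ℝ) : om1 κ 0 = 0 := by simp [om1]

lemma om1_le {α C : ℝ} {κ : ℝ → ℝ} (h : Kap α C κ) {s : ℝ} (hs : 0 ≤ s) :
    |om1 κ s| ≤ C * s := by
  have := om1_lip h s 0
  rwa [om1_zero, sub_zero, sub_zero, abs_of_nonneg hs] at this

lemma kdiv_int {α C : ℝ} {κ : ℝ → ℝ} (h : Kap α C κ) {t : ℝ} (ht : 0 ≤ t) :
    IntervalIntegrable (fun s => κ s / s) volume 0 t := by
  have h1 : IntervalIntegrable (fun s : ℝ => C * s ^ (α - 1)) volume 0 t :=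
    (intervalIntegral.intervalIntegrable_rpow' (by linarith [h.a0])).const_mul C
  refine h1.mono_fun ?_ ?_
  · exact (h.cont.measurable.div measurable_id).aestronglyMeasurable
  · rw [uIoc_of_le ht]
    filter_upwards [ae_restrict_mem measurableSet_Ioc] with s hs
    have hs0 : 0 < s := hs.1
    rw [Real.norm_of_nonneg (div_nonneg (h.nn s) hs0.le),
      Real.norm_of_nonneg (mul_nonneg (by linarith [h.C1]) (Real.rpow_nonneg hs0.le _)),
      div_le_iff₀ hs0, Real.rpow_sub_one hs0.ne', mul_assoc, div_mul_cancel₀ _ hs0.ne']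
    exact h.up s hs0.le

lemma hh1_lip {α C : ℝ} {κ : ℝ → ℝ} (h : Kap α C κ) {ε : ℝ} (hε : 0 < ε) {s s' : ℝ}
    (hs : ε ≤ s) (hs' : ε ≤ s') : |hh1 κ s - hh1 κ s'| ≤ C / ε * |s - s'| := by
  unfold hh1
  rw [intervalIntegral.integral_interval_sub_left (kdiv_int h (hε.le.trans hs))
      (kdiv_int h (hε.le.trans hs'))]
  have h' := intervalIntegral.norm_integral_le_of_norm_le_const (f := fun s => κ s / s)
      (a := s') (b := s) (C := C / ε) (by
        intro t ht
        have ht0 : ε ≤ t := by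
          rcases ht with ⟨h1, h2⟩
          have : ε ≤ min s' s := le_min hs' hs
          linarith
        have : 0 < t := hε.trans_le ht0
        rw [Real.norm_eq_abs, abs_of_nonneg (div_nonneg (h.nn t) this.le)]
        have := h.bd t
        have := h.nn t
        have hC := h.C1
        gcongr)
  rwa [Real.norm_eq_abs] at h'

lemma om1div_lip {α C : ℝ} {κ : ℝ → ℝ} (h : Kap α C κ) {ε : ℝ} (hε : 0 < ε) {s s' : ℝ}
    (hs : ε ≤ s) (hs' : ε ≤ s') : |om1 κ s / s - om1 κ s' / s'| ≤ 2 * C / ε * |s - s'| := by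
  have s0 : 0 < s := hε.trans_le hs
  have s0' : 0 < s' := hε.trans_le hs'
  have e : om1 κ s / s - om1 κ s' / s'
      = (om1 κ s - om1 κ s') / s' + om1 κ s / s * ((s' - s) / s') := by
    field_simp
    ring
  rw [e]
  have a1 : |(om1 κ s - om1 κ s') / s'| ≤ C / ε * |s - s'| := by
    rw [abs_div, abs_of_pos s0', div_mul_eq_mul_div]
    have hC := h.C1
    have := om1_lip h s s'
    gcongr
  have a2 : |om1 κ s / s * ((s' - s) / s')| ≤ C / ε * |s - s'| := by
    have hC := h.C1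
    rw [abs_mul, abs_div, abs_div, abs_of_pos s0, abs_of_pos s0', abs_sub_comm s' s]
    have k1 : |om1 κ s| / s ≤ C := by
      rw [div_le_iff₀ s0]
      exact om1_le h s0.le
    calc |om1 κ s| / s * (|s - s'| / s') ≤ C * (|s - s'| / ε) := by gcongr
      _ = C / ε * |s - s'| := by ring
  refine (abs_add_le _ _).trans ?_
  have : 2 * C / ε * |s - s'| = C / ε * |s - s'| + C / ε * |s - s'| := by ring
  rw [this]
  exact add_le_add a1 a2

lemma Ht_lip {α C : ℝ} {κ : ℝ → ℝ} (h : Kap α C κ) {ε : ℝ} (hε : 0 < ε) {s s' : ℝ}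
    (hs : ε ≤ s) (hs' : ε ≤ s') : |Ht κ s - Ht κ s'| ≤ 5 * C / ε * |s - s'| := by
  unfold Ht
  have e : hh1 κ s - 2 * om1 κ s / s - (hh1 κ s' - 2 * om1 κ s' / s')
      = (hh1 κ s - hh1 κ s') - 2 * (om1 κ s / s - om1 κ s' / s') := by ring
  rw [e]
  refine (abs_sub _ _).trans ?_
  rw [abs_mul, abs_two]
  have h1 := hh1_lip h hε hs hs'
  have h2 := om1div_lip h hε hs hs'
  have : 5 * C / ε * |s - s'| = C / ε * |s - s'| + 2 * (2 * C / ε * |s - s'|) := by ring
  linarith

lemma XX_lip {ε : ℝ} (hε : 0 < ε) (a b : ℂ) : |XX ε a - XX ε b| ≤ ‖a - b‖ := by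
  have hx0 : 0 < XX ε a := Real.sqrt_pos.mpr (by positivity)
  have hy0 : 0 < XX ε b := Real.sqrt_pos.mpr (by positivity)
  have hxa : ‖a‖ ≤ XX ε a := Real.le_sqrt_of_sq_le (by nlinarith)
  have hyb : ‖b‖ ≤ XX ε b := Real.le_sqrt_of_sq_le (by nlinarith)
  have hx2 : XX ε a ^ 2 = ‖a‖ ^ 2 + ε ^ 2 := Real.sq_sqrt (by positivity)
  have hy2 : XX ε b ^ 2 = ‖b‖ ^ 2 + ε ^ 2 := Real.sq_sqrt (by positivity)
  have h1 : |‖a‖ - ‖b‖| ≤ ‖a - b‖ := abs_norm_sub_norm_le a b
  refine le_trans ?_ h1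
  have h2 : (XX ε a - XX ε b) * (XX ε a + XX ε b) = (‖a‖ - ‖b‖) * (‖a‖ + ‖b‖) := by
    nlinarith
  have h3 : |XX ε a - XX ε b| * (XX ε a + XX ε b) = |‖a‖ - ‖b‖| * (‖a‖ + ‖b‖) := by
    have := congrArg abs h2
    rwa [abs_mul, abs_mul, abs_of_pos (by positivity : 0 < XX ε a + XX ε b),
      abs_of_nonneg (by positivity : 0 ≤ ‖a‖ + ‖b‖)] at this
  have h4 : |‖a‖ - ‖b‖| * (‖a‖ + ‖b‖) ≤ |‖a‖ - ‖b‖| * (XX ε a + XX ε b) := by gcongr
  have h5 : 0 < XX ε a + XX ε b := by positivity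
  exact le_of_mul_le_mul_right (h3.le.trans h4) h5

lemma XX_ge {ε : ℝ} (_hε : 0 < ε) (a : ℂ) : ε ≤ XX ε a :=
  Real.le_sqrt_of_sq_le (by nlinarith [sq_nonneg ‖a‖])

theorem main : S_REGE := by
  intro α C κ h ε ϑ hε hϑ
  have hC : 0 ≤ C := by linarith [h.C1]
  constructor
  · -- eX
    have hg : Continuous fun s : ℝ => s * κ (2 * s) :=
      continuous_id.mul (h.cont.comp (continuous_const.mul continuous_id))
    obtain ⟨b1, b2⟩ := int_lin hg (C := C) (by
      intro s hs
      rw [abs_mul, abs_of_nonneg hs, abs_of_nonneg (h.nn _), mul_comm]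
      have := h.bd (2 * s)
      gcongr)
    set A : ℝ → ℝ := fun m => ∫ s in (0 : ℝ)..m, s * κ (2 * s) with hA
    set K : ℝ := 2 * ((2 * 1 * C + 2 * C * 1 ^ 2) / ε * 2) with hK
    have hK0 : 0 ≤ K := by positivity
    refine ⟨K.toNNReal, LipschitzWith.of_dist_le_mul fun F F' => ?_⟩
    rw [Real.coe_toNNReal K hK0, Real.dist_eq]
    set x := XX ε F.1
    set y := XX ε F.2
    set x' := XX ε F'.1
    set y' := XX ε F'.2
    have hx : ε ≤ x := XX_ge hε _
    have hy : ε ≤ y := XX_ge hε _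
    have hx' : ε ≤ x' := XX_ge hε _
    have hy' : ε ≤ y' := XX_ge hε _
    have dx : |x - x'| ≤ dist F F' := by
      refine (XX_lip hε _ _).trans ?_
      rw [← dist_eq_norm, Prod.dist_eq]
      exact le_max_left _ _
    have dy : |y - y'| ≤ dist F F' := by
      refine (XX_lip hε _ _).trans ?_
      rw [← dist_eq_norm, Prod.dist_eq]
      exact le_max_right _ _
    have dm : |min x y - min x' y'| ≤ dist F F' :=
      (abs_min_sub_min_le_max x y x' y').trans (max_le dx dy)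
    have hE : ∀ x y : ℝ, E2 κ x y = A x - A (min x y) := by
      intro x y
      simp only [E2, hA]
      rw [intervalIntegral.integral_interval_sub_left (hg.intervalIntegrable _ _)
        (hg.intervalIntegrable _ _)]
    have e : eX κ ε ϑ F - eX κ ε ϑ F' = (A x / x ^ 2 - A x' / x' ^ 2)
        - (A (min x y) / x ^ 2 - A (min x' y') / x' ^ 2) := by
      simp only [eX, hE]
      ring
    rw [e]
    have q1 := quot hC zero_le_one hε b1 b2 (m := x) (m' := x') (x := x) (x' := x')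
      (hε.le.trans hx) (hε.le.trans hx') hx hx' (by simp) (by simp)
    have q2 := quot hC zero_le_one hε b1 b2 (m := min x y) (m' := min x' y') (x := x) (x' := x')
      (le_min (hε.le.trans hx) (hε.le.trans hy)) (le_min (hε.le.trans hx') (hε.le.trans hy'))
      hx hx' (by simp) (by simp)
    refine (abs_sub _ _).trans ((add_le_add q1 q2).trans ?_)
    have r1 : (2 * 1 * C + 2 * C * 1 ^ 2) / ε * (|x - x'| + |x - x'|)
        ≤ (2 * 1 * C + 2 * C * 1 ^ 2) / ε * (dist F F' + dist F F') := by gcongr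
    have r2 : (2 * 1 * C + 2 * C * 1 ^ 2) / ε * (|min x y - min x' y'| + |x - x'|)
        ≤ (2 * 1 * C + 2 * C * 1 ^ 2) / ε * (dist F F' + dist F F') := by gcongr
    refine (add_le_add r1 r2).trans (le_of_eq ?_)
    rw [hK]
    ring
  · -- gX
    obtain ⟨b1, b2⟩ := int_lin (om1_cont h.cont) (C := C) (fun s hs => om1_le h hs)
    have b1' : ∀ m, 0 ≤ m → |om κ m| ≤ C * m ^ 2 := b1
    have b2' : ∀ m m', 0 ≤ m → 0 ≤ m' → |om κ m - om κ m'| ≤ C * (m + m') * |m - m'| := b2
    set K : ℝ := (2 * 2 * C + 2 * C * 2 ^ 2) / ε * 3 + 20 * C / ε with hK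
    have hK0 : 0 ≤ K := by positivity
    refine ⟨K.toNNReal, LipschitzWith.of_dist_le_mul fun F F' => ?_⟩
    rw [Real.coe_toNNReal K hK0, Real.dist_eq]
    set x := XX ε F.1
    set y := XX ε F.2
    set x' := XX ε F'.1
    set y' := XX ε F'.2
    have hx : ε ≤ x := XX_ge hε _
    have hy : ε ≤ y := XX_ge hε _
    have hx' : ε ≤ x' := XX_ge hε _
    have hy' : ε ≤ y' := XX_ge hε _
    have dx : |x - x'| ≤ dist F F' := by
      refine (XX_lip hε _ _).trans ?_
      rw [← dist_eq_norm, Prod.dist_eq]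
      exact le_max_left _ _
    have dy : |y - y'| ≤ dist F F' := by
      refine (XX_lip hε _ _).trans ?_
      rw [← dist_eq_norm, Prod.dist_eq]
      exact le_max_right _ _
    have dm : |min x y - min x' y'| ≤ dist F F' :=
      (abs_min_sub_min_le_max x y x' y').trans (max_le dx dy)
    have dM : |max x y - max x' y'| ≤ dist F F' :=
      (abs_max_sub_max_le_max x y x' y').trans (max_le dx dy)
    have y0 : 0 < y := hε.trans_le hy
    have y0' : 0 < y' := hε.trans_le hy'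
    have e : gX κ ε ϑ F - gX κ ε ϑ F'
        = -(om κ (y + min x y) / y ^ 2 - om κ (y' + min x' y') / y' ^ 2)
        - ((Ht κ (2 * max x y) - Ht κ (2 * max x' y')) - (Ht κ (2 * y) - Ht κ (2 * y'))) := by
      change G2 κ x y / y ^ 2 - ϑ - (G2 κ x' y' / y' ^ 2 - ϑ) = _
      simp only [G2]
      field_simp
      ring
    rw [e]
    have q1 := quot hC zero_le_two hε b1' b2' (m := y + min x y) (m' := y' + min x' y')
      (x := y) (x' := y')
      (add_nonneg y0.le (le_min (hε.le.trans hx) y0.le))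
      (add_nonneg y0'.le (le_min (hε.le.trans hx') y0'.le)) hy hy'
      (by linarith [min_le_right x y]) (by linarith [min_le_right x' y'])
    have dT : |y + min x y - (y' + min x' y')| ≤ dist F F' + dist F F' := by
      have : y + min x y - (y' + min x' y') = (y - y') + (min x y - min x' y') := by ring
      rw [this]
      exact (abs_add_le _ _).trans (add_le_add dy dm)
    have q2 := Ht_lip h hε (s := 2 * max x y) (s' := 2 * max x' y')
      (by linarith [le_max_right x y]) (by linarith [le_max_right x' y'])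
    have q3 := Ht_lip h hε (s := 2 * y) (s' := 2 * y') (by linarith) (by linarith)
    rw [← mul_sub, abs_mul, abs_two] at q2 q3
    have t1 : |-(om κ (y + min x y) / y ^ 2 - om κ (y' + min x' y') / y' ^ 2)|
        ≤ (2 * 2 * C + 2 * C * 2 ^ 2) / ε * 3 * dist F F' := by
      rw [abs_neg]
      refine q1.trans ?_
      have : (2 * 2 * C + 2 * C * 2 ^ 2) / ε * 3 * dist F F'
        = (2 * 2 * C + 2 * C * 2 ^ 2) / ε * (dist F F' + dist F F' + dist F F') := by ring
      rw [this]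
      gcongr
    have t2 : |(Ht κ (2 * max x y) - Ht κ (2 * max x' y')) - (Ht κ (2 * y) - Ht κ (2 * y'))|
        ≤ 20 * C / ε * dist F F' := by
      refine (abs_sub _ _).trans ((add_le_add q2 q3).trans ?_)
      have : 20 * C / ε * dist F F'
        = 5 * C / ε * (2 * dist F F') + 5 * C / ε * (2 * dist F F') := by ring
      rw [this]
      gcongr
    refine (abs_sub _ _).trans ((add_le_add t1 t2).trans (le_of_eq ?_))
    rw [hK]
    ring

end Pool.Agent.W63.IX.Rege
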